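import Mathlib

/-!
Monotone paths: every colouring of the `k`-subsets of a large ordered set has three consecutive
windows of the same colour.
-/

set_option autoImplicit false

namespace Pool.Agent.W274.SH

/-- Shift graphs have large chromatic number. -/
theorem shift (m : ℕ) : ∀ (C : Type) [Finite C], ∃ N : ℕ, ∀ L : (Fin (m + 1) → Fin N) → C,
    ∃ i : Fin (m + 2) → Fin N, StrictMono i ∧ L (i ∘ Fin.castSucc) = L (i ∘ Fin.succ) := by
  induction m with
  | zero =>
    intro C _
    refine ⟨Nat.card C + 1, fun L => ?_⟩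
    have := Fintype.ofFinite C
    have hcard : Fintype.card C < Fintype.card (Fin (Nat.card C + 1)) := by
      rw [Fintype.card_fin, Nat.card_eq_fintype_card]
      omega
    obtain ⟨a, b, hab, he⟩ := Fintype.exists_ne_map_eq_of_card_lt
      (fun a : Fin (Nat.card C + 1) => L (fun _ => a)) hcard
    have key : ∀ a b : Fin (Nat.card C + 1), a < b → L (fun _ => a) = L (fun _ => b) →
        ∃ i : Fin (0 + 2) → Fin (Nat.card C + 1), StrictMono i ∧
          L (i ∘ Fin.castSucc) = L (i ∘ Fin.succ) := by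
      intro a b hab he
      refine ⟨![a, b], ?_, ?_⟩
      · rw [Fin.strictMono_iff_lt_succ]
        intro i
        fin_cases i
        exact hab
      · have e1 : (![a, b] : Fin 2 → Fin (Nat.card C + 1)) ∘ Fin.castSucc = fun _ => a := by
          funext i
          fin_cases i
          rfl
        have e2 : (![a, b] : Fin 2 → Fin (Nat.card C + 1)) ∘ Fin.succ = fun _ => b := by
          funext i
          fin_cases i
          rfl
        exact (congrArg L e1).trans (he.trans (congrArg L e2).symm)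
    rcases lt_or_gt_of_ne hab with h | h
    · exact key a b h he
    · exact key b a h he.symm
  | succ m ih =>
    intro C _
    obtain ⟨N, hN⟩ := ih (Set C)
    refine ⟨N, fun L => ?_⟩
    obtain ⟨i, hi, hS⟩ := hN (fun V => {c | ∃ j, StrictMono (Fin.cons j V : Fin (m + 2) → Fin N) ∧
      L (Fin.cons j V) = c})
    have e1 : (Fin.cons (i 0) (i ∘ Fin.succ) : Fin (m + 2) → Fin N) = i := by
      funext a
      refine Fin.cases ?_ (fun b => ?_) a
      · rfl
      · rfl
    have h1 : L i ∈ {c | ∃ j, StrictMono (Fin.cons j (i ∘ Fin.succ) : Fin (m + 2) → Fin N) ∧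
        L (Fin.cons j (i ∘ Fin.succ)) = c} := ⟨i 0, by rw [e1]; exact hi, by rw [e1]⟩
    rw [← hS] at h1
    obtain ⟨j, hj, hL⟩ := h1
    refine ⟨Fin.cons j i, ?_, ?_⟩
    · rw [Fin.strictMono_iff_lt_succ]
      intro a
      refine Fin.cases ?_ (fun b => ?_) a
      · have := hj (show (0 : Fin (m + 2)) < Fin.succ 0 from Fin.succ_pos 0)
        exact this
      · exact hi (Fin.castSucc_lt_succ (i := b))
    · have e2 : (Fin.cons j i : Fin (m + 3) → Fin N) ∘ Fin.castSucc =
          Fin.cons j (i ∘ Fin.castSucc) := by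
        funext a
        refine Fin.cases ?_ (fun b => ?_) a
        · rfl
        · rfl
      have e3 : (Fin.cons j i : Fin (m + 3) → Fin N) ∘ Fin.succ = i := by
        funext a
        rfl
      rw [e2, e3]
      exact hL

/-- Window of length `k` starting at `a` of a sequence of length `k + 2`. -/
def W (k a : ℕ) (h : a ≤ 2) (j : Fin k) : Fin (k + 2) := ⟨j.val + a, by omega⟩

/-- Three consecutive windows of the same colour. -/
theorem three (m : ℕ) : ∃ N : ℕ, ∀ h : (Fin (m + 1) → Fin N) → Bool,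
    ∃ i : Fin (m + 1 + 2) → Fin N, StrictMono i ∧
      h (i ∘ W (m + 1) 0 (by omega)) = h (i ∘ W (m + 1) 1 (by omega)) ∧
      h (i ∘ W (m + 1) 1 (by omega)) = h (i ∘ W (m + 1) 2 (by omega)) := by
  classical
  obtain ⟨N, hN⟩ := shift m (Bool × Prop)
  refine ⟨N, fun h => ?_⟩
  obtain ⟨i, hi, hL⟩ := hN (fun V => (h V, ∃ w : Fin (m + 2) → Fin N, StrictMono w ∧
    w ∘ Fin.succ = V ∧ h (w ∘ Fin.castSucc) = h V))
  rw [Prod.mk.injEq] at hL
  obtain ⟨h1, h2⟩ := hL
  have h3 : ∃ w : Fin (m + 2) → Fin N, StrictMono w ∧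
    w ∘ Fin.succ = i ∘ Fin.succ ∧ h (w ∘ Fin.castSucc) = h (i ∘ Fin.succ) := ⟨i, hi, rfl, h1⟩
  rw [← h2] at h3
  obtain ⟨w, hw, hws, hwh⟩ := h3
  refine ⟨Fin.cons (w 0) i, ?_, ?_⟩
  · rw [Fin.strictMono_iff_lt_succ]
    intro a
    refine Fin.cases ?_ (fun b => ?_) a
    · have e1 : w (Fin.succ 0) = i (Fin.castSucc 0) := congrFun hws 0
      have := hw (show (0 : Fin (m + 2)) < Fin.succ 0 from Fin.succ_pos 0)
      rw [e1] at this
      exact this
    · exact hi (Fin.castSucc_lt_succ (i := b))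
  · have e0 : (Fin.cons (w 0) i : Fin (m + 1 + 2) → Fin N) ∘ W (m + 1) 0 (by omega) =
        w ∘ Fin.castSucc := by
      funext a
      refine Fin.cases ?_ (fun b => ?_) a
      · rfl
      · have e1 : w (Fin.succ (Fin.castSucc b)) = i (Fin.castSucc (Fin.castSucc b)) :=
          congrFun hws (Fin.castSucc b)
        exact e1.symm
    have e1 : (Fin.cons (w 0) i : Fin (m + 1 + 2) → Fin N) ∘ W (m + 1) 1 (by omega) =
        i ∘ Fin.castSucc := by
      funext a
      rfl
    have e2 : (Fin.cons (w 0) i : Fin (m + 1 + 2) → Fin N) ∘ W (m + 1) 2 (by omega) =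
        i ∘ Fin.succ := by
      funext a
      rfl
    rw [e0, e1, e2]
    exact ⟨hwh, h1⟩

end Pool.Agent.W274.SH
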