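import Pool.Agent.Helper808.ShiftLimit
import Pool.Agent.W274.SH.Ram

/-!
The improved upper bound for spreadable laws, odd window length.
-/

set_option autoImplicit false

namespace Pool.Agent.W274.SH

open Finset Pool.Agent.Helper808.ShiftUpper

/-- Three equal consecutive bits in a cyclic sequence of odd length cost one pattern `10`. -/
theorem card_three (n : ℕ) [NeZero n] (hn : Odd n) (h3 : 3 ≤ n) (b : ZMod n → Bool)
    (h01 : b 0 = b 1) (h12 : b 1 = b 2) :
    (Finset.univ.filter fun a => b a = true ∧ b (a + 1) = false).card + 1 ≤ n / 2 := by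
  classical
  have : Fact (1 < n) := ⟨by omega⟩
  set A := Finset.univ.filter fun a => b a = true ∧ b (a + 1) = false with hA
  have hd : Disjoint A (A.image (fun a => a + 1)) := by
    rw [Finset.disjoint_left]
    intro a ha ha'
    rw [Finset.mem_image] at ha'
    obtain ⟨c, hc, rfl⟩ := ha'
    rw [hA, Finset.mem_filter] at ha hc
    rw [hc.2.2] at ha
    exact absurd ha.2.1 (by simp)
  have h2 : (A.image (fun a => a + 1)).card = A.card :=
    Finset.card_image_of_injective _ (add_left_injective 1)
  have hmem : ∀ a, a ∈ A ↔ b a = true ∧ b (a + 1) = false := by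
    intro a
    rw [hA, Finset.mem_filter]
    simp
  have hmem' : ∀ a, a + 1 ∈ A.image (fun a => a + 1) ↔ b a = true ∧ b (a + 1) = false := by
    intro a
    rw [Finset.mem_image]
    constructor
    · rintro ⟨c, hc, he⟩
      have : c = a := add_right_cancel he
      subst this
      exact (hmem c).1 hc
    · intro h
      exact ⟨a, (hmem a).2 h, rfl⟩
  have h11 : (1 : ZMod n) + 1 = 2 := by norm_num
  have key : ∃ c : ZMod n, c ∉ A ∪ A.image (fun a => a + 1) ∧
      c + 1 ∉ A ∪ A.image (fun a => a + 1) := by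
    cases hb : b 0 with
    | true =>
      have hb1 : b 1 = true := by rw [← h01, hb]
      have hb2 : b 2 = true := by rw [← h12, hb1]
      refine ⟨0, ?_, ?_⟩
      · rw [Finset.mem_union]
        rintro (h | h)
        · have := ((hmem 0).1 h).2
          rw [zero_add, hb1] at this
          exact absurd this (by simp)
        · rw [Finset.mem_image] at h
          obtain ⟨c, hc, he⟩ := h
          have := ((hmem c).1 hc).2
          rw [he, hb] at this
          exact absurd this (by simp)
      · rw [Finset.mem_union]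
        rintro (h | h)
        · have := ((hmem _).1 h).2
          rw [zero_add, h11, hb2] at this
          exact absurd this (by simp)
        · have := ((hmem' 0).1 h).2
          rw [zero_add, hb1] at this
          exact absurd this (by simp)
    | false =>
      have hb1 : b 1 = false := by rw [← h01, hb]
      have hb2 : b 2 = false := by rw [← h12, hb1]
      refine ⟨0 + 1, ?_, ?_⟩
      · rw [Finset.mem_union]
        rintro (h | h)
        · have := ((hmem _).1 h).1
          rw [zero_add, hb1] at this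
          exact absurd this (by simp)
        · have := ((hmem' 0).1 h).1
          rw [hb] at this
          exact absurd this (by simp)
      · rw [Finset.mem_union]
        rintro (h | h)
        · have := ((hmem _).1 h).1
          rw [zero_add, h11, hb2] at this
          exact absurd this (by simp)
        · have := ((hmem' (0 + 1)).1 h).1
          rw [zero_add, hb1] at this
          exact absurd this (by simp)
  obtain ⟨c, hc1, hc2⟩ := key
  have hne : c ≠ c + 1 := by
    intro h
    have : (0 : ZMod n) = 1 := by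
      have h' : c + 0 = c + 1 := by rw [add_zero]; exact h
      exact add_left_cancel h'
    exact zero_ne_one this
  have h4 : (insert c (insert (c + 1) (A ∪ A.image (fun a => a + 1)))).card ≤ n :=
    (Finset.card_le_univ _).trans (le_of_eq (ZMod.card n))
  rw [Finset.card_insert_of_notMem, Finset.card_insert_of_notMem hc2,
    Finset.card_union_of_disjoint hd, h2] at h4
  · obtain ⟨q, rfl⟩ := hn
    omega
  · rw [Finset.mem_insert]
    rintro (h | h)
    · exact hne h
    · exact hc1 h

theorem upper_cyclic3 (n : ℕ) [NeZero n] (hn : Odd n) (h3 : 3 ≤ n)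
    {C : Type} [Fintype C] [DecidableEq C]
    (D : (ZMod n → C) → ℝ) (h0 : ∀ s, 0 ≤ D s) (h1 : ∑ s, D s = 1)
    (h2 : ∀ s, D (fun a => s (a + 1)) = D s) (f : C → Bool) :
    ∑ s, D s * ((if f (s 0) = true ∧ f (s 1) = false then 1 else 0) +
      (1 / (n : ℝ)) * (if f (s 0) = f (s 1) ∧ f (s 1) = f (s 2) then 1 else 0)) ≤
      ((n / 2 : ℕ) : ℝ) / n := by
  classical
  set F : (ZMod n → C) → ZMod n → ℝ := fun s a =>
    if f (s a) = true ∧ f (s (a + 1)) = false then 1 else 0 with hF
  set T : (ZMod n → C) → ℝ := fun s =>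
    if f (s 0) = f (s 1) ∧ f (s 1) = f (s 2) then 1 else 0 with hT
  have hstep : ∀ a : ZMod n, ∑ s, D s * F s (a + 1) = ∑ s, D s * F s a := by
    intro a
    let e : (ZMod n → C) ≃ (ZMod n → C) :=
      Equiv.arrowCongr (Equiv.addRight (-1 : ZMod n)) (Equiv.refl _)
    have he : ∀ t a, e t a = t (a + 1) := by
      intro t a
      simp [e, Equiv.arrowCongr]
    rw [← Equiv.sum_comp e (fun s => D s * F s a)]
    apply Finset.sum_congr rfl
    intro s _
    have e1 : D (e s) = D s := by
      rw [← h2 s]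
      congr 1
      funext a
      exact he s a
    rw [e1]
    simp only [hF, he]
  have hnat : ∀ j : ℕ, ∑ s, D s * F s (j : ZMod n) = ∑ s, D s * F s 0 := by
    intro j
    induction j with
    | zero => simp
    | succ j ih =>
      have := hstep (j : ZMod n)
      push_cast
      rw [this, ih]
  have hall : ∀ a : ZMod n, ∑ s, D s * F s a = ∑ s, D s * F s 0 := by
    intro a
    have := hnat a.val
    rw [ZMod.natCast_val, ZMod.cast_id] at this
    exact this
  have hsum : (n : ℝ) * ∑ s, D s * F s 0 = ∑ s, D s * ∑ a, F s a := by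
    have : ∑ a : ZMod n, ∑ s, D s * F s a = ∑ a : ZMod n, ∑ s, D s * F s 0 :=
      Finset.sum_congr rfl fun a _ => hall a
    rw [Finset.sum_const, Finset.card_univ, ZMod.card, nsmul_eq_mul] at this
    rw [← this, Finset.sum_comm]
    simp_rw [Finset.mul_sum]
  have hle : ∑ s, D s * (∑ a, F s a + T s) ≤ ((n / 2 : ℕ) : ℝ) := by
    calc ∑ s, D s * (∑ a, F s a + T s) ≤ ∑ s, D s * ((n / 2 : ℕ) : ℝ) := by
          apply Finset.sum_le_sum
          intro s _
          apply mul_le_mul_of_nonneg_left _ (h0 s)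
          simp only [hF, hT]
          rw [Finset.sum_boole]
          split_ifs with h
          · have := card_three n hn h3 (fun a => f (s a)) h.1 h.2
            exact_mod_cast this
          · have := card_pattern_le n (fun a => f (s a))
            rw [add_zero]
            exact_mod_cast this
      _ = ((n / 2 : ℕ) : ℝ) := by rw [← Finset.sum_mul, h1, one_mul]
  have hnp : (0 : ℝ) < n := by
    have := NeZero.ne n
    positivity
  rw [le_div_iff₀ hnp]
  have hz : (∑ s, D s * ((if f (s 0) = true ∧ f (s 1) = false then (1 : ℝ) else 0) +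
      (1 / (n : ℝ)) * T s)) * n = ∑ s, D s * (∑ a, F s a + T s) := by
    have e1 : ∑ s, D s * (∑ a, F s a + T s) = ∑ s, D s * ∑ a, F s a + ∑ s, D s * T s := by
      rw [← Finset.sum_add_distrib]
      exact Finset.sum_congr rfl fun s _ => by ring
    rw [e1, ← hsum, Finset.mul_sum, Finset.sum_mul, ← Finset.sum_add_distrib]
    apply Finset.sum_congr rfl
    intro s _
    have e2 : F s 0 = if f (s 0) = true ∧ f (s 1) = false then (1 : ℝ) else 0 := by
      simp only [hF, zero_add]
    rw [e2]
    field_simp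
  rw [hz]
  exact hle

/-- The `10` pattern at the first two of three windows, and the event that the three windows
agree. -/
noncomputable def pat {k : ℕ} (x : Cfg (k + 2)) : ℝ :=
  if x (univ.image (W k 0 (by omega))) = true ∧ x (univ.image (W k 1 (by omega))) = false
  then 1 else 0

noncomputable def eqq {k : ℕ} (x : Cfg (k + 2)) : ℝ :=
  if x (univ.image (W k 0 (by omega))) = x (univ.image (W k 1 (by omega))) ∧
    x (univ.image (W k 1 (by omega))) = x (univ.image (W k 2 (by omega))) then 1 else 0

theorem law_cyc (P : Law) (k : ℕ) (hk : Odd k) :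
    P.E (fun x : Cfg (k + 2) => pat x + (1 / ((k + 2 : ℕ) : ℝ)) * eqq x) ≤
      (((k + 2) / 2 : ℕ) : ℝ) / ((k + 2 : ℕ) : ℝ) := by
  classical
  have hr : 0 + k + 0 ≤ 0 + (k + 2) + 0 := by omega
  set φ : Fin (k + 2) → Fin (0 + (k + 2) + 0) := Fin.cast (by omega) with hφ
  have hφm : StrictMono φ := fun i j hij => hij
  rw [← P.E_pull φ hφm]
  have hlab : ∀ a : ℕ, a ≤ 2 → ∀ j : Fin (0 + k + 0), (lab hr a j).val = j.val + a := by
    intro a ha j
    unfold lab
    rw [emb_val]
    have := j.isLt
    have e : min (0 + a - 0) (0 + (k + 2) + 0 - (0 + k + 0)) = a := by omega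
    rw [e]
    split_ifs <;> omega
  have e0 : ∀ (a : ℕ) (ha : a ≤ 2), (Finset.univ.image (W k a ha)).image φ =
      Finset.univ.image (lab hr a) := by
    intro a ha
    rw [Finset.image_image]
    ext x
    simp only [Finset.mem_image, Finset.mem_univ, true_and]
    constructor
    · rintro ⟨j, rfl⟩
      refine ⟨⟨j.val, by omega⟩, ?_⟩
      apply Fin.ext
      rw [hlab a ha]
      rfl
    · rintro ⟨j, rfl⟩
      refine ⟨⟨j.val, by omega⟩, ?_⟩
      apply Fin.ext
      rw [hlab a ha]
      rfl
  have key : ∀ ε : ℝ, 0 < ε → P.E (fun x : Cfg (0 + (k + 2) + 0) =>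
      pat (pull φ x) + (1 / ((k + 2 : ℕ) : ℝ)) * eqq (pull φ x)) ≤
      (((k + 2) / 2 : ℕ) : ℝ) / ((k + 2 : ℕ) : ℝ) + ε := by
    intro ε hε
    obtain ⟨D, h0, h1, h2, h3⟩ := approx_all P (k + 2) k 0 3 (by omega) (by omega) hr ε hε
    let G : (Fin 3 → Cfg (0 + k + 0)) → ℝ := fun v =>
      (if v 0 Finset.univ = true ∧ v 1 Finset.univ = false then 1 else 0) +
        (1 / ((k + 2 : ℕ) : ℝ)) * (if v 0 Finset.univ = v 1 Finset.univ ∧
          v 1 Finset.univ = v 2 Finset.univ then 1 else 0)
    have hnn : (0 : ℝ) ≤ 1 / ((k + 2 : ℕ) : ℝ) := by positivity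
    have hn1 : (1 : ℝ) / ((k + 2 : ℕ) : ℝ) ≤ 1 := by
      rw [div_le_one (by positivity)]
      exact_mod_cast (by omega : 1 ≤ k + 2)
    have hG0 : ∀ v, 0 ≤ G v := by
      intro v
      simp only [G]
      split_ifs <;> simp only [mul_one, mul_zero, add_zero, zero_add] <;> linarith
    have hG1 : ∀ v, G v ≤ 1 := by
      intro v
      simp only [G]
      split_ifs with h4 h5
      · exfalso
        rw [h4.1, h4.2] at h5
        exact absurd h5.1 (by simp)
      · simp
      · rw [mul_one, zero_add]; exact hn1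
      · simp
    have s1 : (fun x : Cfg (0 + (k + 2) + 0) =>
        pat (pull φ x) + (1 / ((k + 2 : ℕ) : ℝ)) * eqq (pull φ x)) =
        fun x => G (fun a : Fin 3 => pull (lab hr (a : ℕ)) x) := by
      funext x
      have t0 : ∀ (a : ℕ) (ha : a ≤ 2), pull φ x (Finset.univ.image (W k a ha)) =
        pull (lab hr a) x Finset.univ := fun a ha => congrArg x (e0 a ha)
      unfold pat eqq
      rw [t0, t0, t0]
      rfl
    rw [s1, E_labels P hr (K := 3) G]
    have s2 := sum_group (n := k + 2) (K := 3) D G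
    have hodd : Odd (k + 2) := by
      obtain ⟨q, rfl⟩ := hk
      exact ⟨q + 1, by ring⟩
    have hk1 : 1 ≤ k := by
      obtain ⟨q, rfl⟩ := hk
      omega
    have s3 := upper_cyclic3 (k + 2) hodd (by omega) D h0 h1 h2 (fun c => c Finset.univ)
    have s4 : ∑ s : ZMod (k + 2) → Cfg (0 + k + 0),
        D s * G (fun a : Fin 3 => s ((a : ℕ) : ZMod (k + 2))) =
        ∑ s, D s * ((if (fun c : Cfg (0 + k + 0) => c Finset.univ) (s 0) = true ∧
          (fun c : Cfg (0 + k + 0) => c Finset.univ) (s 1) = false then 1 else 0) +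
          (1 / ((k + 2 : ℕ) : ℝ)) * (if (fun c : Cfg (0 + k + 0) => c Finset.univ) (s 0) =
            (fun c : Cfg (0 + k + 0) => c Finset.univ) (s 1) ∧
            (fun c : Cfg (0 + k + 0) => c Finset.univ) (s 1) =
            (fun c : Cfg (0 + k + 0) => c Finset.univ) (s 2) then 1 else 0)) := by
      apply Finset.sum_congr rfl
      intro s _
      have q0 : (((0 : Fin 3) : ℕ) : ZMod (k + 2)) = 0 := by simp
      have q1 : (((1 : Fin 3) : ℕ) : ZMod (k + 2)) = 1 := by simp
      have q2 : (((2 : Fin 3) : ℕ) : ZMod (k + 2)) = 2 := by simp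
      simp only [G, q0, q1, q2]
    have s5 : ∑ v, PL P hr v * G v - ∑ u : Fin 3 → Cfg (0 + k + 0),
        (∑ s : ZMod (k + 2) → Cfg (0 + k + 0),
        if ∀ a : Fin 3, s ((a : ℕ) : ZMod (k + 2)) = u a then D s else 0) * G u ≤ ε := by
      rw [← Finset.sum_sub_distrib]
      refine le_trans (Finset.sum_le_sum (fun v _ => ?_)) h3
      rw [← sub_mul]
      refine (le_abs_self _).trans ?_
      rw [abs_mul, abs_of_nonneg (hG0 v), abs_sub_comm]
      exact mul_le_of_le_one_right (abs_nonneg _) (hG1 v)
    rw [← s2, s4] at s5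
    linarith
  exact le_of_forall_pos_le_add key

/-- The probability that three consecutive windows agree is bounded below. -/
theorem eqq_pos (k : ℕ) (hk : 1 ≤ k) : ∃ M : ℝ, 0 < M ∧ ∀ P : Law,
    1 ≤ M * P.E (fun x : Cfg (k + 2) => eqq x) := by
  classical
  obtain ⟨m, rfl⟩ : ∃ m, k = m + 1 := ⟨k - 1, by omega⟩
  obtain ⟨N, hN⟩ := three m
  set I : Finset (Fin (m + 1 + 2) → Fin N) := univ.filter StrictMono with hI
  have hge : ∀ x : Cfg N, (1 : ℝ) ≤ ∑ i ∈ I, eqq (pull i x) := by
    intro x
    obtain ⟨i, hi, h1, h2⟩ := hN (fun V => x (univ.image V))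
    have h3 : eqq (pull i x) = 1 := by
      unfold eqq
      rw [if_pos]
      have e : ∀ (a : ℕ) (ha : a ≤ 2), pull i x (univ.image (W (m + 1) a ha)) =
          x (univ.image (i ∘ W (m + 1) a ha)) := by
        intro a ha
        unfold pull
        rw [Finset.image_image]
      rw [e, e, e]
      exact ⟨h1, h2⟩
    rw [← h3]
    apply Finset.single_le_sum (f := fun i => eqq (pull i x))
    · intro j _
      simp only [eqq]
      split_ifs <;> norm_num
    · rw [hI, mem_filter]
      exact ⟨mem_univ _, hi⟩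
  refine ⟨(I.card : ℝ) + 1, by positivity, fun P => ?_⟩
  have h1 : P.E (fun _ : Cfg N => (1 : ℝ)) ≤ P.E (fun x => ∑ i ∈ I, eqq (pull i x)) :=
    P.E_mono hge
  rw [P.E_const, P.E_sum] at h1
  have h2 : ∀ i ∈ I, P.E (fun x : Cfg N => eqq (pull i x)) =
      P.E (fun x : Cfg (m + 1 + 2) => eqq x) := by
    intro i hi
    rw [hI, mem_filter] at hi
    exact P.E_pull i hi.2 (fun x => eqq x)
  rw [Finset.sum_congr rfl h2, Finset.sum_const, nsmul_eq_mul] at h1
  have h3 : 0 ≤ P.E (fun x : Cfg (m + 1 + 2) => eqq x) := by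
    have : P.E (fun _ : Cfg (m + 1 + 2) => (0 : ℝ)) ≤ P.E (fun x : Cfg (m + 1 + 2) => eqq x) := by
      apply P.E_mono
      intro x
      simp only [eqq]
      split_ifs <;> norm_num
    rwa [P.E_const] at this
  linarith

/-- The pattern `10` on a shift pair. -/
noncomputable def FF (k : ℕ) (x : Cfg (k + 1)) : ℝ :=
  if x (Finset.univ.image (Fin.castSucc : Fin k → Fin (k + 1))) = true ∧
    x (Finset.univ.image (Fin.succ : Fin k → Fin (k + 1))) = false then 1 else 0

/-- The improved upper bound for spreadable laws. -/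
theorem law_odd (k : ℕ) (hk : Odd k) : ∃ δ : ℝ, 0 < δ ∧ ∀ P : Law,
    P.E (FF k) ≤ (((k + 2) / 2 : ℕ) : ℝ) / ((k + 2 : ℕ) : ℝ) - δ := by
  have hk1 : 1 ≤ k := by
    obtain ⟨q, rfl⟩ := hk
    omega
  obtain ⟨M, hM, hP⟩ := eqq_pos k hk1
  refine ⟨1 / ((k + 2 : ℕ) : ℝ) * (1 / M), by positivity, fun P => ?_⟩
  have h1 := law_cyc P k hk
  rw [P.E_add] at h1
  have h2 : P.E (fun x : Cfg (k + 2) => pat x) = P.E (FF k) := by
    rw [← P.E_pull (Fin.castSucc : Fin (k + 1) → Fin (k + 2)) Fin.strictMono_castSucc]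
    congr 1
    funext x
    unfold pat FF pull
    rw [Finset.image_image, Finset.image_image]
    rfl
  have h3 : P.E (fun x : Cfg (k + 2) => (1 / ((k + 2 : ℕ) : ℝ)) * eqq x) =
      (1 / ((k + 2 : ℕ) : ℝ)) * P.E (fun x : Cfg (k + 2) => eqq x) := by
    unfold Law.E
    rw [Finset.mul_sum]
    exact Finset.sum_congr rfl fun x _ => by ring
  have h4 : 1 / M ≤ P.E (fun x : Cfg (k + 2) => eqq x) := by
    rw [div_le_iff₀ hM, mul_comm]
    exact hP P
  have h5 : 1 / ((k + 2 : ℕ) : ℝ) * (1 / M) ≤
      (1 / ((k + 2 : ℕ) : ℝ)) * P.E (fun x : Cfg (k + 2) => eqq x) :=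
    mul_le_mul_of_nonneg_left h4 (by positivity)
  rw [h2, h3] at h1
  linarith

end Pool.Agent.W274.SH
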