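import Pool.Agent.Results.MP_4e1dcd_co.FFour
import Pool.Agent.W274.SH.Law

/-!
# The limits `f(k)` for odd `k` are strictly smaller than `f(k + 1)`
-/

set_option autoImplicit false

open MeasureTheory Filter

namespace Pool.Agent.W274.SH.Odd

open Pool.Agent.Results.MP_4e1dcd_co.FThree Pool.Agent.Results.MP_4e1dcd_co.FFour
open Pool.Agent.Helper808.ShiftUpper (Cfg Law pull)
open Pool.Agent.Helper808.ShiftLimit
open Pool.Agent.W274.SH (FF law_odd)

section Build

variable (v : ∀ n : ℕ, Cfg (n + 1) → ℝ) (h0 : ∀ n x, 0 ≤ v n x) (h1 : ∀ n, ∑ x, v n x = 1)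

include h0 h1 in
/-- Transfer of a bound for spreadable laws to sequences of systems. -/
theorem weights_le (k : ℕ) (c B : ℝ) (hB : ∀ P : Law, P.E (FF k) ≤ B)
    (hc : ∀ (n : ℕ) (i : Fin (k + 1) → Fin (n + 1)), StrictMono i →
      c ≤ ∑ x, v n x * (if x (Finset.univ.image fun j : Fin k => i j.castSucc) = true ∧
        x (Finset.univ.image fun j : Fin k => i j.succ) = false then 1 else 0)) :
    c ≤ B := by
  refine le_trans ?_ (hB (mkLaw v h0 h1))
  set F : Cfg (k + 1) → ℝ := fun x =>
      if x (Finset.univ.image (Fin.castSucc : Fin k → Fin (k + 1))) = true ∧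
        x (Finset.univ.image (Fin.succ : Fin k → Fin (k + 1))) = false then 1 else 0 with hF
  have hFb : ∀ x, |F x| ≤ 1 := by
    intro x
    simp only [hF]
    split_ifs <;> simp
  change c ≤ (mkLaw v h0 h1).E F
  rw [E_mkLaw v h0 h1 F hFb]
  have hb : ∀ a : Fin (k + 1) → ℕ, |∑ y, lwt v y a * F y| ≤ 1 := by
    intro a
    refine (Finset.abs_sum_le_sum_abs _ _).trans ?_
    rw [← sum_lwt v h0 h1 a]
    apply Finset.sum_le_sum
    intro y _
    rw [abs_mul, abs_of_nonneg (lwt_nonneg v h0 h1 y a)]
    exact mul_le_of_le_one_right (lwt_nonneg v h0 h1 y a) (hFb y)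
  apply It_ge (k + 1) hb
  intro a ha
  have e1 : ∑ y, lwt v y a * F y = ulim (fun n => ∑ y, wt v n a y * F y) := by
    rw [ulim_sum (C := 1) Finset.univ (fun y n => by
      rw [abs_mul]
      exact mul_le_one₀ (abs_wt_le v h0 h1 n a y) (abs_nonneg _) (hFb y))]
    apply Finset.sum_congr rfl
    intro y _
    exact (ulim_mul_const (fun n => abs_wt_le v h0 h1 n a y) (F y)).symm
  rw [e1]
  apply ulim_ge (C := 1) (N := a (Fin.last k))
  · intro n
    rw [sum_wt_mul, ← h1 n]
    refine (Finset.abs_sum_le_sum_abs _ _).trans ?_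
    apply Finset.sum_le_sum
    intro y _
    rw [abs_mul, abs_of_nonneg (h0 n y)]
    exact mul_le_of_le_one_right (h0 n y) (hFb _)
  · intro n hn
    rw [sum_wt_mul]
    have hm : StrictMono (clamp n a) := by
      intro i j hij
      rw [Fin.lt_def]
      simp only [clamp]
      have q1 := ha hij
      have q2 : a j ≤ a (Fin.last k) := ha.monotone (Fin.le_last j)
      omega
    refine (hc n (clamp n a) hm).trans (le_of_eq ?_)
    apply Finset.sum_congr rfl
    intro x _
    simp only [hF]
    have t0 : pull (clamp n a) x (Finset.univ.image (Fin.castSucc : Fin k → Fin (k + 1))) =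
        x (Finset.univ.image fun j : Fin k => clamp n a j.castSucc) := by
      unfold pull
      rw [Finset.image_image]
      rfl
    have t1 : pull (clamp n a) x (Finset.univ.image (Fin.succ : Fin k → Fin (k + 1))) =
        x (Finset.univ.image fun j : Fin k => clamp n a j.succ) := by
      unfold pull
      rw [Finset.image_image]
      rfl
    rw [t0, t1]

end Build

/-- A bound for spreadable laws bounds `f(n, k)`. -/
lemma upper_of (k : ℕ) (c B : ℝ) (hB : ∀ P : Law, P.E (FF k) ≤ B)
    (hc : ∀ n, k + 1 ≤ n → c < fnk n k) : c ≤ B := by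
  classical
  have hex : ∀ n : ℕ, ∃ v : Cfg (n + 1) → ℝ, (∀ x, 0 ≤ v x) ∧ ∑ x, v x = 1 ∧
      ∀ i : Fin (k + 1) → Fin (n + 1), StrictMono i →
      c ≤ ∑ x, v x * (if x (Finset.univ.image fun j : Fin k => i j.castSucc) = true ∧
        x (Finset.univ.image fun j : Fin k => i j.succ) = false then 1 else 0) := by
    intro n
    by_cases hn : k + 1 ≤ n + 1
    · obtain ⟨t, ht, hct⟩ := exists_lt_of_lt_csSup (values_nonempty _ _) (hc (n + 1) hn)
      obtain ⟨Ω, _, P, hP, E, hE, rfl⟩ := ht
      obtain ⟨v, h0, h1, h2⟩ := exists_weights P k (n + 1) E hE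
      refine ⟨v, h0, h1, fun i hi => ?_⟩
      have hs : IsShiftPair k (n + 1) (Finset.univ.image fun j : Fin k => i j.castSucc)
          (Finset.univ.image fun j : Fin k => i j.succ) := ⟨i, hi, rfl, rfl⟩
      rw [h2 _ _ (card_left hs) (card_right hs)]
      exact hct.le.trans (sysValue_le P E hs)
    · refine ⟨fun x => if x = (fun _ => false) then 1 else 0, ?_, ?_, ?_⟩
      · intro x
        simp only
        split_ifs <;> norm_num
      · simp
      · intro i hi
        exfalso
        apply hn
        have := Fintype.card_le_of_injective i hi.injective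
        simpa using this
  choose v h0 h1 h2 using hex
  exact weights_le v h0 h1 k c B hB h2

lemma limit_le {k : ℕ} {L B : ℝ} (hL : Tendsto (fun n => fnk n k) atTop (nhds L))
    (hB : ∀ P : Law, P.E (FF k) ≤ B) : L ≤ B := by
  apply le_of_forall_lt
  intro c hc
  obtain ⟨c', hc1, hc2⟩ := exists_between hc
  refine hc1.trans_le (upper_of k c' B hB ?_)
  intro n hn
  refine hc2.trans_le ?_
  have hanti : ∀ j : ℕ, fnk (n + j) k ≤ fnk n k := by
    intro j
    induction j with
    | zero => exact le_refl _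
    | succ j ih => exact (fnk_succ_le (n := n + j) (by omega)).trans ih
  have h1 : Tendsto (fun j => fnk (n + j) k) atTop (nhds L) := by
    have := (tendsto_add_atTop_iff_nat (f := fun n => fnk n k) n).2 hL
    simp_rw [add_comm n]
    exact this
  exact le_of_tendsto h1 (Eventually.of_forall hanti)

lemma odd_lt {k : ℕ} (hk : Odd k) : ∃ L : ℝ, Tendsto (fun n => fnk n k) atTop (nhds L) ∧
    L < ((k : ℝ) + 1) / (2 * k + 4) := by
  obtain ⟨L, hL⟩ := exists_limit k
  obtain ⟨δ, hδ, hB⟩ := law_odd k hk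
  refine ⟨L, hL, ?_⟩
  have h1 := limit_le hL hB
  have h2 : (((k + 2) / 2 : ℕ) : ℝ) / ((k + 2 : ℕ) : ℝ) = ((k : ℝ) + 1) / (2 * k + 4) := by
    obtain ⟨q, rfl⟩ := hk
    have e : (2 * q + 1 + 2) / 2 = q + 1 := by omega
    rw [e]
    push_cast
    rw [div_eq_div_iff (by positivity) (by positivity)]
    ring
  rw [h2] at h1
  linarith

end Pool.Agent.W274.SH.Odd
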